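import Pool.Agent.H174.GP.All3

/-!
# The decay exponent of the probability that a random partition is graphical

`pg m` is the probability that a uniformly random partition of `m` is graphical. Let `z_1, z_2, …` be
independent standard normal variables and `vG L = P(∀ x ∈ {1, …, L}, ∑_{j ≤ L} min(j,x) z_j / j ≥ 0)`.

We prove that `-log (vG L) / log L` converges to some `θ ∈ [√3/12, 1/4]` and that
`-log (pg (2n)) / log n` converges to `θ/2`. So `p(2n) = n^{-α+o(1)}` with `α = θ/2 ∈ [√3/24, 1/8]`.

The modules `Pool.Agent.H174.GP.*` hold the definitions and the statements of the lemmas, with their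
paper proofs as doc comments; their proofs are in `Pool.Agent.H*.GP174.*`.
-/

open Filter Topology

namespace Pool.Agent.Results.MP_08fd0c_co.GraphicalExponent

/-- The exponent of the graphical partitions exists, it is one half of the persistence exponent `θ`
of the Gaussian process `∑_j min(j,x) z_j / j`, and `√3/12 ≤ θ ≤ 1/4`. -/
theorem result : ∃ θ : ℝ, Real.sqrt 3 / 12 ≤ θ ∧ θ ≤ 1 / 4 ∧
    Tendsto (fun L : ℕ => -Real.log (Pool.Agent.H174.GP.vG L) / Real.log L) atTop (𝓝 θ) ∧
    Tendsto (fun n : ℕ => -Real.log (Pool.Agent.H174.GP.pg (2 * n)) / Real.log n) atTop (𝓝 (θ / 2)) := by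
  obtain ⟨θ, _, h1, h2⟩ := Pool.Agent.H174.GP.t_final
  exact ⟨θ, Pool.Agent.H174.GP.t_rt3 θ h1, Pool.Agent.H174.GP.t_thq θ h1,
    Pool.Agent.H174.GP.t_gtheta θ h1, h2⟩

end Pool.Agent.Results.MP_08fd0c_co.GraphicalExponent
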